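import Pool.Agent.Q233.RSP.Mark

/-!
# Random spectra: the theorem for surfaces
-/

set_option autoImplicit false

open Set Filter Topology MeasureTheory
open Pool.Agent.Y262.QE Pool.Agent.Y264.QR

noncomputable section

namespace Pool.Agent.Q233.RSP

variable {M : Type} [MetricSpace M] [CompactSpace M] [MeasurableSpace M] [BorelSpace M]
  [Nonempty M] (μ : Measure M) (D : Data M)

/-- a countable subset with the same closed span -/
lemma countable_total (S : Set C(M, ℝ)) (hS : Dense (Submodule.span ℝ S : Set C(M, ℝ))) :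
    ∃ T ⊆ S, T.Countable ∧ Dense (Submodule.span ℝ T : Set C(M, ℝ)) := by
  obtain ⟨T, hT1, hT2, hT3⟩ :=
    (TopologicalSpace.IsSeparable.of_separableSpace S).exists_countable_dense_subset
  refine ⟨T, hT1, hT2, ?_⟩
  have h1 : S ⊆ closure (Submodule.span ℝ T : Set C(M, ℝ)) :=
    hT3.trans (closure_mono Submodule.subset_span)
  have h2 : (Submodule.span ℝ S : Set C(M, ℝ)) ⊆ closure (Submodule.span ℝ T : Set C(M, ℝ)) := by
    have : Submodule.span ℝ S ≤ (Submodule.span ℝ T).topologicalClosure := Submodule.span_le.2 h1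
    exact this
  exact (hS.mono h2).of_closure

theorem top (hD : D.IsSurf μ) [MeasurableSpace C(M, ℝ)] [BorelSpace C(M, ℝ)]
    (P : Measure C(M, ℝ)) [IsProbabilityMeasure P] (S : Set C(M, ℝ))
    (hS : Dense (Submodule.span ℝ S : Set C(M, ℝ)))
    (hP : ∀ h ∈ S, ∀ t : ℝ, P.map (fun φ => φ + t • h) ≪ P) :
    (∀ᵐ φ ∂P, ∀ (u : ℕ → M → ℝ) (lam : ℕ → ℝ),
      EigBasis (D.conf fun x => Real.exp (φ x)) (wm μ fun x => Real.exp (φ x)) u lam →
      ∀ j, 0 < lam j → lam j < lam (j + 1)) ∧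
    ∀ (p q : ℕ), p < q → ∀ N : Set ℝ, volume N = 0 →
      ∀ᵐ φ ∂P, ∀ (u : ℕ → M → ℝ) (lam : ℕ → ℝ),
      EigBasis (D.conf fun x => Real.exp (φ x)) (wm μ fun x => Real.exp (φ x)) u lam → 0 < lam q →
      (wm μ fun x => Real.exp (φ x)).real univ * (lam q - lam p) ∉ N := by
  obtain ⟨hf, -⟩ := tFin M μ D hD
  haveI := hf
  obtain ⟨T, hTS, hTc, hT⟩ := countable_total S hS
  obtain ⟨i, a, hSf, hi, ha⟩ := tPackF M μ D hD inferInstance
  obtain ⟨b, hB, hF, hpos, hcmp, -⟩ := tFm M μ (HF D μ) i a hSf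
  have hW := tWl M μ D hD inferInstance i a b hSf hi ha hB
  obtain ⟨-, hmon, -, hcont, hdich⟩ := tLip M μ (HF D μ) a b hF hcmp
  have hbr := fun φ u lam hu => tBr M μ D hD i a b hSf hi ha hB hF φ u lam hu
  choose u₀ lam₀ hu₀ using fun φ => tEx M μ D hD inferInstance φ
  choose e he1 he2 using fun φ => hbr φ (u₀ φ) (lam₀ φ) (hu₀ φ)
  have hEv : ∀ φ (u : ℕ → M → ℝ) (lam : ℕ → ℝ),
      EigBasis (D.conf fun x => Real.exp (φ x)) (wm μ fun x => Real.exp (φ x)) u lam →
      ∀ j, lam j = Ev a (b φ) j := by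
    intro φ u lam hu j
    obtain ⟨e', -, he'⟩ := hbr φ u lam hu
    exact (Pool.Agent.Y592.QE.mm _ a (b φ) (hF φ) e' lam he' j).symm
  have hdif : ∀ᵐ φ ∂P, ∀ h ∈ T, Dif a b h φ := by
    rw [ae_ball_iff hTc]
    intro h hh
    exact ae_dif hSf hB hW e lam₀ he2 P h (hP h (hTS hh))
  constructor
  · filter_upwards [hdif] with φ h1 u lam hu j hj
    obtain ⟨e', -, he'⟩ := hbr φ u lam hu
    rcases (he'.mono (Nat.le_succ j)).lt_or_eq with h | h
    · exact h
    · exact absurd (simple hSf hB T hT h1 he' (Nat.lt_succ_self j).ne h hj) id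
  · intro p q hpq N hN
    rcases hdich q with h0 | h0
    · refine Eventually.of_forall fun φ u lam hu hq => ?_
      rw [hEv φ u lam hu q, h0 φ] at hq
      exact absurd hq (lt_irrefl _)
    · have h1 := gap_null hSf hB hW e lam₀ he2 P T hTc hT (fun h hh => hP h (hTS hh))
        (fun φ v lam hlam he δ hδ => nz hD i a b hi ha hB φ (hpos φ) v lam hlam he δ hδ) p q hpq
        (fun φ => by rw [hEv φ _ _ (hu₀ φ) q]; exact h0 φ) N hN
      filter_upwards [h1] with φ h2 u lam hu _
      have h3 : (wm μ fun x => Real.exp (φ x)).real univ = ∫ x, Real.exp (φ x) ∂μ := by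
        have hm : Measurable fun x => Real.exp (φ x) :=
          (Real.continuous_exp.comp φ.continuous).measurable
        have h5 : (wm μ fun x => Real.exp (φ x)).real univ =
            ∫ x, (1 : ℝ) ∂(wm μ fun x => Real.exp (φ x)) := by simp
        rw [h5, integral_wm μ _ hm fun x => (Real.exp_pos _).le]
        simp
      rw [h3, hEv φ u lam hu, hEv φ u lam hu]
      exact h2

end Pool.Agent.Q233.RSP
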