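import Mathlib

/-!
# Random spectra: a differentiable function of one variable meets a null set with derivative zero

For every function `g` of one real variable and every null set `N`, at almost every point `t` with
`g t` in `N` the derivative of `g`, if it exists, is zero.
-/

set_option autoImplicit false

open Set Filter Topology MeasureTheory

namespace Pool.Agent.Q233.RSP

/-- the points at which `g` expands distances up to the scale `2 / n` by at least `1 / n` -/
def Exs (g : ℝ → ℝ) (n : ℕ) : Set ℝ :=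
  {t | ∀ s : ℝ, |s - t| < 1 / ((n : ℝ) + 1) → |s - t| ≤ ((n : ℝ) + 1) * |g s - g t|}

lemma exs_of_der {g : ℝ → ℝ} {t D : ℝ} (h : HasDerivAt g D t) (hD : D ≠ 0) :
    ∃ n : ℕ, t ∈ Exs g n := by
  have h1 := h.isLittleO
  have hD0 : 0 < |D| := abs_pos.2 hD
  have h2 := h1.def (show 0 < |D| / 2 by positivity)
  obtain ⟨δ, hδ, h3⟩ := Metric.eventually_nhds_iff.1 h2
  obtain ⟨n, hn⟩ := exists_nat_one_div_lt (show 0 < min δ (|D| / 2) by positivity)
  refine ⟨n, fun s hs => ?_⟩
  have hs1 : |s - t| < δ := hs.trans (hn.trans_le (min_le_left _ _))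
  have h4 := h3 (show dist s t < δ by rw [Real.dist_eq]; exact hs1)
  rw [Real.norm_eq_abs, Real.norm_eq_abs, smul_eq_mul] at h4
  have h5 : |D| * |s - t| ≤ |g s - g t| + |D| / 2 * |s - t| := by
    calc |D| * |s - t| = |(s - t) * D| := by rw [abs_mul, mul_comm]
      _ = |(g s - g t) - (g s - g t - (s - t) * D)| := by ring_nf
      _ ≤ |g s - g t| + |g s - g t - (s - t) * D| := abs_sub _ _
      _ ≤ _ := by gcongr
  have h6 : |D| / 2 * |s - t| ≤ |g s - g t| := by linarith
  have hn2 : 1 / ((n : ℝ) + 1) ≤ |D| / 2 := (hn.trans_le (min_le_right _ _)).le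
  have hn0 : 0 < (n : ℝ) + 1 := by positivity
  have h7 : 1 / ((n : ℝ) + 1) * |s - t| ≤ |g s - g t| :=
    (mul_le_mul_of_nonneg_right hn2 (abs_nonneg _)).trans h6
  have h8 := mul_le_mul_of_nonneg_left h7 hn0.le
  rwa [← mul_assoc, mul_one_div_cancel hn0.ne', one_mul] at h8

/-- a set on which `g` is expanding and whose image is null is null -/
lemma null_of_anti {g : ℝ → ℝ} {N S : Set ℝ} (hN : volume N = 0) (hS : ∀ t ∈ S, g t ∈ N) (K : NNReal)
    (hK : ∀ s ∈ S, ∀ t ∈ S, |s - t| ≤ K * |g s - g t|) : volume S = 0 := by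
  have hinj : InjOn g S := by
    intro s hs t ht hst
    have h1 := hK s hs t ht
    rw [hst, sub_self, abs_zero, mul_zero] at h1
    exact sub_eq_zero.1 (abs_nonpos_iff.1 h1)
  set f : ℝ → ℝ := Function.invFunOn g S with hf
  have hfg : ∀ t ∈ S, f (g t) = t := fun t ht => hinj.leftInvOn_invFunOn ht
  have hL : LipschitzOnWith K f (g '' S) := by
    refine LipschitzOnWith.of_dist_le_mul ?_
    rintro _ ⟨s, hs, rfl⟩ _ ⟨t, ht, rfl⟩
    rw [hfg s hs, hfg t ht, Real.dist_eq, Real.dist_eq]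
    exact hK s hs t ht
  have h1 : S ⊆ f '' (g '' S) := fun t ht => ⟨g t, ⟨t, ht, rfl⟩, hfg t ht⟩
  have h2 := hL.hausdorffMeasure_image_le (d := 1) zero_le_one
  rw [← hausdorffMeasure_real] at hN ⊢
  have h3 : Measure.hausdorffMeasure 1 (g '' S) = 0 :=
    measure_mono_null (by rintro _ ⟨t, ht, rfl⟩; exact hS t ht) hN
  rw [h3, mul_zero] at h2
  exact measure_mono_null h1 (le_antisymm h2 bot_le)

/-- **the derivative vanishes at almost every point of the preimage of a null set** -/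
theorem null_der (g : ℝ → ℝ) (N : Set ℝ) (hN : volume N = 0) :
    ∀ᵐ t : ℝ, g t ∈ N → ∀ D : ℝ, HasDerivAt g D t → D = 0 := by
  have key : ∀ (n : ℕ) (m : ℤ), volume ({t | g t ∈ N ∧ t ∈ Exs g n} ∩
      Ico (m * (1 / ((n : ℝ) + 1))) ((m + 1) * (1 / ((n : ℝ) + 1)))) = 0 := by
    intro n m
    refine null_of_anti (g := g) hN (fun t ht => ht.1.1) (n + 1) ?_
    rintro s ⟨⟨-, hs⟩, hs1, hs2⟩ t ⟨⟨-, ht⟩, ht1, ht2⟩
    push_cast
    have h1 : |s - t| < 1 / ((n : ℝ) + 1) := by
      rw [abs_lt]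
      constructor <;> linarith
    exact ht s h1
  have hall : volume (⋃ (n : ℕ) (m : ℤ), ({t | g t ∈ N ∧ t ∈ Exs g n} ∩
      Ico (m * (1 / ((n : ℝ) + 1))) ((m + 1) * (1 / ((n : ℝ) + 1))))) = 0 :=
    measure_iUnion_null fun n => measure_iUnion_null fun m => key n m
  rw [ae_iff]
  refine measure_mono_null ?_ hall
  intro t ht
  simp only [mem_setOf_eq, Classical.not_imp, not_forall] at ht
  obtain ⟨h1, D, hD, hD0⟩ := ht
  obtain ⟨n, hn⟩ := exs_of_der hD hD0
  have hn0 : 0 < 1 / ((n : ℝ) + 1) := by positivity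
  obtain ⟨m, hm⟩ := (existsUnique_zsmul_near_of_pos hn0 t).exists
  simp only [mem_iUnion]
  refine ⟨n, m, ⟨h1, hn⟩, ?_, ?_⟩
  · have := hm.1
    rwa [zsmul_eq_mul] at this
  · have := hm.2
    rw [zsmul_eq_mul] at this
    push_cast at this
    exact this

end Pool.Agent.Q233.RSP
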