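import Pool.Agent.Y264.QR.All
import Pool.Agent.Q233.RSP.Line

/-!
# Random spectra: the abstract part

Simplicity of the spectrum and the laws of the differences of eigenvalues.
-/

set_option autoImplicit false

open Set Filter Topology MeasureTheory
open Pool.Agent.Y262.QE Pool.Agent.Y264.QR Pool.Agent.Y319.QR

noncomputable section

namespace Pool.Agent.Q233.RSP

/-! ### test functions -/

section test

variable {M : Type} [MetricSpace M] [CompactSpace M] [MeasurableSpace M] [BorelSpace M]
  (μ : Measure M) [IsFiniteMeasure μ]

lemma cint (f : C(M, ℝ)) {w : M → ℝ} (hw : Integrable w μ) : Integrable (fun x => f x * w x) μ := by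
  refine hw.bdd_mul (c := ‖f‖) f.continuous.aestronglyMeasurable ?_
  exact Eventually.of_forall fun x => f.norm_coe_le_norm x

/-- an integrable function which is orthogonal to a total set of continuous functions vanishes -/
lemma zero_of_total {w : M → ℝ} (hw : Integrable w μ) (S : Set C(M, ℝ))
    (hS : Dense (Submodule.span ℝ S : Set C(M, ℝ))) (h : ∀ f ∈ S, ∫ x, f x * w x ∂μ = 0) :
    w =ᵐ[μ] 0 := by
  have hall : ∀ f : C(M, ℝ), ∫ x, f x * w x ∂μ = 0 := by
    intro f
    have hsp : ∀ g ∈ Submodule.span ℝ S, ∫ x, g x * w x ∂μ = 0 := by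
      intro g hg
      induction hg using Submodule.span_induction with
      | mem x hx => exact h x hx
      | zero => simp
      | add x y _ _ hx hy =>
        have e1 : (fun z => (x + y) z * w z) = fun z => x z * w z + y z * w z := by
          funext z
          rw [ContinuousMap.add_apply, add_mul]
        rw [e1, integral_add (cint μ x hw) (cint μ y hw), hx, hy, add_zero]
      | smul c x _ hx =>
        have e1 : (fun z => (c • x) z * w z) = fun z => c * (x z * w z) := by
          funext z
          rw [ContinuousMap.smul_apply, smul_eq_mul, mul_assoc]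
        rw [e1, integral_const_mul, hx, mul_zero]
    by_contra hne
    have hpos : 0 < |∫ x, f x * w x ∂μ| := abs_pos.2 hne
    set C : ℝ := ∫ x, |w x| ∂μ with hC
    have hC0 : 0 ≤ C := integral_nonneg fun x => abs_nonneg _
    obtain ⟨g, hg, hgf⟩ := Metric.mem_closure_iff.1 (hS f) (|∫ x, f x * w x ∂μ| / (C + 1))
      (by positivity)
    rw [dist_eq_norm] at hgf
    have h1 : ∫ x, f x * w x ∂μ = ∫ x, (f - g) x * w x ∂μ := by
      have e1 : (fun z => (f - g) z * w z) = fun z => f z * w z - g z * w z := by
        funext z
        rw [ContinuousMap.sub_apply, sub_mul]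
      rw [e1, integral_sub (cint μ f hw) (cint μ g hw), hsp g hg, sub_zero]
    have h2 : |∫ x, (f - g) x * w x ∂μ| ≤ ‖f - g‖ * C := by
      rw [← Real.norm_eq_abs, hC, ← integral_const_mul]
      refine (norm_integral_le_integral_norm _).trans ?_
      refine integral_mono (cint μ (f - g) hw).norm (hw.abs.const_mul _) fun x => ?_
      rw [Real.norm_eq_abs, abs_mul]
      exact mul_le_mul_of_nonneg_right ((f - g).norm_coe_le_norm x) (abs_nonneg _)
    rw [← h1] at h2
    have h3 : ‖f - g‖ * (C + 1) < |∫ x, f x * w x ∂μ| := by
      rwa [lt_div_iff₀ (by positivity)] at hgf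
    nlinarith [norm_nonneg (f - g)]
  -- the positive and the negative part define the same measure
  have hp : Integrable (fun x => max (w x) 0) μ := hw.pos_part
  have hn : Integrable (fun x => max (-w x) 0) μ := hw.neg_part
  set νp := μ.withDensity fun x => ENNReal.ofReal (max (w x) 0) with hνp
  set νn := μ.withDensity fun x => ENNReal.ofReal (max (-w x) 0) with hνn
  haveI : IsFiniteMeasure νp := isFiniteMeasure_withDensity_ofReal hp.2
  haveI : IsFiniteMeasure νn := isFiniteMeasure_withDensity_ofReal hn.2
  have hpm : AEMeasurable (fun x => ENNReal.ofReal (max (w x) 0)) μ :=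
    hp.1.aemeasurable.ennreal_ofReal
  have hnm : AEMeasurable (fun x => ENNReal.ofReal (max (-w x) 0)) μ :=
    hn.1.aemeasurable.ennreal_ofReal
  have heq : νp = νn := by
    refine ext_of_forall_integral_eq_of_IsFiniteMeasure fun f => ?_
    have e1 : ∫ x, f x ∂νp = ∫ x, f x * max (w x) 0 ∂μ := by
      rw [hνp, integral_withDensity_eq_integral_toReal_smul₀ hpm (by simp)]
      refine integral_congr_ae (Eventually.of_forall fun x => ?_)
      show (ENNReal.ofReal (max (w x) 0)).toReal • f x = _
      rw [ENNReal.toReal_ofReal (le_max_right _ _), smul_eq_mul, mul_comm]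
    have e2 : ∫ x, f x ∂νn = ∫ x, f x * max (-w x) 0 ∂μ := by
      rw [hνn, integral_withDensity_eq_integral_toReal_smul₀ hnm (by simp)]
      refine integral_congr_ae (Eventually.of_forall fun x => ?_)
      show (ENNReal.ofReal (max (-w x) 0)).toReal • f x = _
      rw [ENNReal.toReal_ofReal (le_max_right _ _), smul_eq_mul, mul_comm]
    rw [e1, e2, ← sub_eq_zero]
    have i1 : Integrable (fun x => f x * max (w x) 0) μ := cint μ f.toContinuousMap hp
    have i2 : Integrable (fun x => f x * max (-w x) 0) μ := cint μ f.toContinuousMap hn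
    rw [← integral_sub i1 i2]
    refine Eq.trans ?_ (hall f.toContinuousMap)
    refine integral_congr_ae (Eventually.of_forall fun x => ?_)
    show f x * max (w x) 0 - f x * max (-w x) 0 = f x * w x
    rw [← mul_sub]
    congr 1
    rcases le_total 0 (w x) with hx | hx
    · rw [max_eq_left hx, max_eq_right (by linarith), sub_zero]
    · rw [max_eq_right hx, max_eq_left (by linarith)]
      ring
  have h1 := (withDensity_eq_iff hpm hnm (by
    have := measure_lt_top νp univ
    rw [hνp, withDensity_apply _ MeasurableSet.univ, Measure.restrict_univ] at this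
    exact this.ne)).1 heq
  filter_upwards [h1] with x hx
  have h2 : max (w x) 0 = max (-w x) 0 := by
    have := congrArg ENNReal.toReal hx
    rwa [ENNReal.toReal_ofReal (le_max_right _ _), ENNReal.toReal_ofReal (le_max_right _ _)] at this
  show w x = 0
  rcases le_total 0 (w x) with hx | hx
  · rw [max_eq_left hx, max_eq_right (by linarith)] at h2
    exact h2
  · rw [max_eq_right hx, max_eq_left (by linarith)] at h2
    linarith

end test

/-! ### rotation of two eigenvectors -/

section rot

variable {H : Type} [NormedAddCommGroup H] [InnerProductSpace ℝ H]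

/-- the rotated family -/
def rot (e : ℕ → H) (p q : ℕ) (c s : ℝ) : ℕ → H := fun j =>
  if j = p then c • e p + s • e q else if j = q then (-s) • e p + c • e q else e j

lemma rot_eg {a b : H →L[ℝ] H →L[ℝ] ℝ} (sb : ∀ u v, b u v = b v u) {e : ℕ → H} {E : ℕ → ℝ}
    (h : Eg a b e E) {p q : ℕ} (hpq : p ≠ q) (hE : E p = E q) {c s : ℝ} (hcs : c ^ 2 + s ^ 2 = 1) :
    Eg a b (rot e p q c s) E := by
  have hqp : q ≠ p := hpq.symm
  have rp : rot e p q c s p = c • e p + s • e q := by simp [rot]
  have rq : rot e p q c s q = (-s) • e p + c • e q := by simp [rot, hqp]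
  have ro : ∀ j, j ≠ p → j ≠ q → rot e p q c s j = e j := fun j h1 h2 => by simp [rot, h1, h2]
  have opp : b (e p) (e p) = 1 := by rw [h.orth, if_pos rfl]
  have oqq : b (e q) (e q) = 1 := by rw [h.orth, if_pos rfl]
  have opq : b (e p) (e q) = 0 := by rw [h.orth, if_neg hpq]
  have oqp : b (e q) (e p) = 0 := by rw [h.orth, if_neg hqp]
  refine ⟨?_, ?_, h.mono, h.tt, ?_⟩
  · intro i j
    rcases eq_or_ne i p with rfl | hip
    · rcases eq_or_ne j i with rfl | hjp
      · rw [rp, if_pos rfl]
        simp only [map_add, map_smul, ContinuousLinearMap.add_apply, ContinuousLinearMap.smul_apply,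
          smul_eq_mul, opp, oqq, opq, oqp]
        linarith
      · rcases eq_or_ne j q with rfl | hjq
        · rw [rp, rq, if_neg hpq]
          simp only [map_add, map_smul, ContinuousLinearMap.add_apply,
            ContinuousLinearMap.smul_apply, smul_eq_mul, opp, oqq, opq, oqp]
          ring
        · rw [rp, ro j hjp hjq, if_neg hjp.symm]
          simp only [map_add, map_smul, ContinuousLinearMap.add_apply,
            ContinuousLinearMap.smul_apply, smul_eq_mul, h.orth, if_neg hjp.symm, if_neg hjq.symm]
          ring
    · rcases eq_or_ne i q with rfl | hiq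
      · rcases eq_or_ne j p with rfl | hjp
        · rw [rp, rq, if_neg hqp]
          simp only [map_add, map_smul, ContinuousLinearMap.add_apply,
            ContinuousLinearMap.smul_apply, smul_eq_mul, opp, oqq, opq, oqp]
          ring
        · rcases eq_or_ne j i with rfl | hjq
          · rw [rq, if_pos rfl]
            simp only [map_add, map_smul, ContinuousLinearMap.add_apply,
              ContinuousLinearMap.smul_apply, smul_eq_mul, opp, oqq, opq, oqp]
            linarith
          · rw [rq, ro j hjp hjq, if_neg hjq.symm]
            simp only [map_add, map_smul, ContinuousLinearMap.add_apply,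
              ContinuousLinearMap.smul_apply, smul_eq_mul, h.orth, if_neg hjp.symm,
              if_neg hjq.symm]
            ring
      · rw [ro i hip hiq]
        rcases eq_or_ne j p with rfl | hjp
        · rw [rp, if_neg hip]
          simp only [map_add, map_smul, smul_eq_mul, h.orth, if_neg hip, if_neg hiq]
          ring
        · rcases eq_or_ne j q with rfl | hjq
          · rw [rq, if_neg hiq]
            simp only [map_add, map_smul, smul_eq_mul, h.orth, if_neg hip, if_neg hiq]
            ring
          · rw [ro j hjp hjq, h.orth]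
  · intro j v
    rcases eq_or_ne j p with rfl | hjp
    · rw [rp]
      simp only [map_add, map_smul, ContinuousLinearMap.add_apply, ContinuousLinearMap.smul_apply,
        smul_eq_mul, h.eig, ← hE]
      ring
    · rcases eq_or_ne j q with rfl | hjq
      · rw [rq]
        simp only [map_add, map_smul, ContinuousLinearMap.add_apply,
          ContinuousLinearMap.smul_apply, smul_eq_mul, h.eig, hE]
        ring
      · rw [ro j hjp hjq]
        exact h.eig j v
  · intro v
    set g : ℕ → ℝ := fun j => (b v (rot e p q c s j)) ^ 2 - (b v (e j)) ^ 2 with hg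
    have h0 : ∀ j, j ∉ ({p, q} : Finset ℕ) → g j = 0 := by
      intro j hj
      simp only [Finset.mem_insert, Finset.mem_singleton, not_or] at hj
      simp only [hg]
      rw [ro j hj.1 hj.2, sub_self]
    have h1 : HasSum g (∑ j ∈ ({p, q} : Finset ℕ), g j) := hasSum_sum_of_ne_finset_zero h0
    have h2 : ∑ j ∈ ({p, q} : Finset ℕ), g j = 0 := by
      rw [Finset.sum_pair hpq]
      simp only [hg]
      rw [rp, rq]
      simp only [map_add, map_smul, smul_eq_mul]
      have e1 : s ^ 2 = 1 - c ^ 2 := by linarith
      have : ∀ x y : ℝ, (c * x + s * y) ^ 2 - x ^ 2 + ((-s * x + c * y) ^ 2 - y ^ 2) = 0 := by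
        intro x y
        have : (c * x + s * y) ^ 2 - x ^ 2 + ((-s * x + c * y) ^ 2 - y ^ 2) =
          (c ^ 2 + s ^ 2 - 1) * (x ^ 2 + y ^ 2) := by ring
        rw [this, hcs, sub_self, zero_mul]
      exact this _ _
    rw [h2] at h1
    have h3 := (h.sum v).add h1
    rw [add_zero] at h3
    have h4 : (fun j => (b v (rot e p q c s j)) ^ 2) = fun j => (b v (e j)) ^ 2 + g j := by
      funext j
      simp only [hg]
      ring
    rw [h4]
    exact h3

end rot

end Pool.Agent.Q233.RSP
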