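import Pool.Agent.Q233.RSP.Abs

/-!
# Random spectra: simplicity and the laws of the differences, for forms
-/

set_option autoImplicit false

open Set Filter Topology MeasureTheory
open Pool.Agent.Y262.QE Pool.Agent.Y264.QR Pool.Agent.Y319.QR

noncomputable section

namespace Pool.Agent.Q233.RSP

variable {M : Type} [MetricSpace M] [CompactSpace M] [MeasurableSpace M] [BorelSpace M]
  {μ : Measure M} [IsFiniteMeasure μ] {H : Type} [NormedAddCommGroup H] [InnerProductSpace ℝ H]
  {i : H →L[ℝ] Lp ℝ 2 μ} {a : H →L[ℝ] H →L[ℝ] ℝ} {b : C(M, ℝ) → H →L[ℝ] H →L[ℝ] ℝ}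

/-- all branches are differentiable at `φ` in the direction `h` -/
def Dif (a : H →L[ℝ] H →L[ℝ] ℝ) (b : C(M, ℝ) → H →L[ℝ] H →L[ℝ] ℝ) (h φ : C(M, ℝ)) : Prop :=
  ∀ l, DifferentiableAt ℝ (fun t : ℝ => Ev a (b (φ + t • h)) l) 0

/-- for every law which is quasi-invariant in the direction `h` the branches are almost surely
differentiable in this direction -/
theorem ae_dif [MeasurableSpace C(M, ℝ)] [BorelSpace C(M, ℝ)] (hSf : Sf μ i a) (hB : IsB μ i b)
    (hW : Wl μ a b) (e : C(M, ℝ) → ℕ → H) (E : C(M, ℝ) → ℕ → ℝ)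
    (hEg : ∀ φ, Eg a (b φ) (e φ) (E φ)) (P : Measure C(M, ℝ)) [IsProbabilityMeasure P]
    (h : C(M, ℝ)) (hac : ∀ t : ℝ, P.map (fun φ => φ + t • h) ≪ P) : ∀ᵐ φ ∂P, Dif a b h φ := by
  obtain ⟨b', hB', hFm, hpos, hcmp, hk⟩ := tFm M μ H i a hSf
  have hbb : b' = b := b_unique hB' hB
  subst hbb
  obtain ⟨-, hmon, -, hcont, hdich⟩ := tLip M μ H a b' hFm hcmp
  obtain ⟨hcm1, -, -, hcm4⟩ := Pool.Agent.Y689.QR.cm M μ
  have hFlw := hcm4 P h hac
  have hline : ∀ φ : C(M, ℝ), ∀ᵐ t : ℝ, ∀ j, HasDerivAt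
      (fun τ : ℝ => Ev a (b' ((φ + t • h) + τ • h)) j)
      (-(kap μ i h (φ + t • h) (e (φ + t • h) j) * Ev a (b' (φ + t • h)) j)) 0 := by
    intro φ
    have h1 := (tOneP M μ H i a b' hSf hB hW φ h (fun t => e (φ + t • h))
      (fun t => E (φ + t • h)) (fun t => hEg (φ + t • h))).1
    filter_upwards [h1] with t ht j
    exact shift_der (G := fun φ => Ev a (b' φ) j) (ht j)
  unfold Dif
  rw [ae_all_iff]
  intro j
  have h1 : MeasurableSet {φ : C(M, ℝ) |
      ¬ DifferentiableAt ℝ (fun t : ℝ => Ev a (b' (φ + t • h)) j) 0} :=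
    (hcm1 (fun φ => Ev a (b' φ) j) (hcont j) h).2.compl
  exact Pool.Agent.Y941.QR.qn C(M, ℝ) P (fun (t : ℝ) φ => φ + t • h) hFlw _ h1 (by
    intro φ
    filter_upwards [hline φ] with t ht
    exact fun hn => hn (ht j).differentiableAt)

/-- the derivatives of the branches at a point of differentiability, for all bases -/
theorem branch (hSf : Sf μ i a) (hB : IsB μ i b) {h φ : C(M, ℝ)} (hd : Dif a b h φ) {e : ℕ → H}
    {E : ℕ → ℝ} (hEg : Eg a (b φ) e E) (j : ℕ) :
    HasDerivAt (fun t : ℝ => Ev a (b (φ + t • h)) j) (-(kap μ i h φ (e j) * E j)) 0 := by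
  obtain ⟨b', hB', hFm, hpos, hcmp, hk⟩ := tFm M μ H i a hSf
  have hbb : b' = b := b_unique hB' hB
  subst hbb
  obtain ⟨k, hks, hkk, hkt⟩ := hk h
  obtain ⟨-, hmon, -, hcont, hdich⟩ := tLip M μ H a b' hFm hcmp
  have h1 := point tDer0 a b' hFm hmon h (k φ) ‖h‖ φ (hks φ) (fun v => (hkk φ v).2)
    (fun v τ => hkt φ v τ) e E hEg hd j
  rw [(hkk φ (e j)).1, Pool.Agent.Y592.QE.mm H a (b' φ) (hFm φ) e E hEg j] at h1
  exact h1

lemma cross_int (φ : C(M, ℝ)) (u v : H) :
    Integrable (fun x => Real.exp (φ x) * (i u x * i v x)) μ :=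
  cint μ ⟨fun x => Real.exp (φ x), Real.continuous_exp.comp φ.continuous⟩
    ((Lp.memLp (i u)).integrable_mul (Lp.memLp (i v)))

lemma kap_comb (h φ : C(M, ℝ)) (u v : H) (c s : ℝ) :
    kap μ i h φ (c • u + s • v) = c ^ 2 * kap μ i h φ u + s ^ 2 * kap μ i h φ v +
      2 * c * s * ∫ x, h x * (Real.exp (φ x) * (i u x * i v x)) ∂μ := by
  have h1 : (i (c • u + s • v) : M → ℝ) =ᵐ[μ] fun x => c * i u x + s * i v x := by
    rw [map_add, map_smul, map_smul]
    filter_upwards [Lp.coeFn_add (c • i u) (s • i v), Lp.coeFn_smul c (i u),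
      Lp.coeFn_smul s (i v)] with x h2 h3 h4
    rw [h2, Pi.add_apply, h3, h4]
    rfl
  have e1 : kap μ i h φ (c • u + s • v) = ∫ x, (c ^ 2 * (h x * (Real.exp (φ x) * (i u x * i u x))) +
      s ^ 2 * (h x * (Real.exp (φ x) * (i v x * i v x)))) +
      2 * c * s * (h x * (Real.exp (φ x) * (i u x * i v x))) ∂μ := by
    unfold kap
    refine integral_congr_ae ?_
    filter_upwards [h1] with x hx
    rw [hx]
    ring
  have q1 := (cint μ h (cross_int (μ := μ) (i := i) φ u u)).const_mul (c ^ 2)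
  have q2 := (cint μ h (cross_int (μ := μ) (i := i) φ v v)).const_mul (s ^ 2)
  have q3 := (cint μ h (cross_int (μ := μ) (i := i) φ u v)).const_mul (2 * c * s)
  have q12 : Integrable (fun x => c ^ 2 * (h x * (Real.exp (φ x) * (i u x * i u x))) +
      s ^ 2 * (h x * (Real.exp (φ x) * (i v x * i v x)))) μ := q1.add q2
  rw [e1, integral_add q12 q3, integral_add q1 q2, integral_const_mul, integral_const_mul,
    integral_const_mul]
  have e2 : ∀ w : H, kap μ i h φ w = ∫ x, h x * (Real.exp (φ x) * (i w x * i w x)) ∂μ := by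
    intro w
    unfold kap
    refine integral_congr_ae (Eventually.of_forall fun x => ?_)
    ring
  rw [e2 u, e2 v]

/-- **simplicity**: at a point of differentiability in sufficiently many directions the positive
eigenvalues are simple -/
theorem simple (hSf : Sf μ i a) (hB : IsB μ i b) {φ : C(M, ℝ)} (S : Set C(M, ℝ))
    (hS : Dense (Submodule.span ℝ S : Set C(M, ℝ))) (hd : ∀ h ∈ S, Dif a b h φ) {e : ℕ → H}
    {E : ℕ → ℝ} (hEg : Eg a (b φ) e E) {p q : ℕ} (hpq : p ≠ q) (hE : E p = E q) (hp : 0 < E p) :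
    False := by
  obtain ⟨b', hB', hFm, -, -, -⟩ := tFm M μ H i a hSf
  have hbb : b' = b := b_unique hB' hB
  subst hbb
  have hrot : ∀ c s : ℝ, c ^ 2 + s ^ 2 = 1 → ∀ h ∈ S,
      kap μ i h φ (c • e p + s • e q) = kap μ i h φ (e p) := by
    intro c s hcs h hh
    have h1 := branch hSf hB (hd h hh) hEg p
    have h2 := branch hSf hB (hd h hh) (rot_eg (hFm φ).sb hEg hpq hE hcs) p
    have h3 := h1.unique h2
    have h4 : rot e p q c s p = c • e p + s • e q := by simp [rot]
    rw [h4] at h3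
    have h5 : kap μ i h φ (e p) * E p = kap μ i h φ (c • e p + s • e q) * E p := neg_injective h3
    exact (mul_right_cancel₀ hp.ne' h5).symm
  have hcr : ∀ h ∈ S, ∫ x, h x * (Real.exp (φ x) * (i (e p) x * i (e q) x)) ∂μ = 0 ∧
      kap μ i h φ (e q) = kap μ i h φ (e p) := by
    intro h hh
    have h1 := hrot 0 1 (by norm_num) h hh
    rw [zero_smul, zero_add, one_smul] at h1
    have h2 := hrot (3 / 5) (4 / 5) (by norm_num) h hh
    rw [kap_comb, h1] at h2
    exact ⟨by linarith, h1⟩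
  have z1 := zero_of_total μ (cross_int (μ := μ) (i := i) φ (e p) (e q)) S hS fun h hh => (hcr h hh).1
  have z2 := zero_of_total μ ((cross_int (μ := μ) (i := i) φ (e q) (e q)).sub
    (cross_int (μ := μ) (i := i) φ (e p) (e p))) S hS (by
      intro h hh
      have h1 := (hcr h hh).2
      have e2 : ∀ w : H, kap μ i h φ w = ∫ x, h x * (Real.exp (φ x) * (i w x * i w x)) ∂μ := by
        intro w
        unfold kap
        refine integral_congr_ae (Eventually.of_forall fun x => ?_)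
        ring
      rw [e2, e2, ← sub_eq_zero, ← integral_sub (cint μ h (cross_int (μ := μ) (i := i) φ _ _))
        (cint μ h (cross_int (μ := μ) (i := i) φ _ _))] at h1
      rw [← h1]
      refine integral_congr_ae (Eventually.of_forall fun x => ?_)
      simp only [Pi.sub_apply]
      ring)
  have h0 : ∀ᵐ x ∂μ, (i (e p) : M → ℝ) x = 0 := by
    filter_upwards [z1, z2] with x h1 h2
    simp only [Pi.sub_apply, Pi.zero_apply] at h1 h2
    have h3 := Real.exp_pos (φ x)
    have h4 : (i (e p) : M → ℝ) x * (i (e q) : M → ℝ) x = 0 := by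
      rcases mul_eq_zero.1 h1 with h | h
      · exact absurd h h3.ne'
      · exact h
    have h5 : (i (e q) : M → ℝ) x * (i (e q) : M → ℝ) x = (i (e p) : M → ℝ) x * (i (e p) : M → ℝ) x := by
      have : Real.exp (φ x) * ((i (e q) : M → ℝ) x * (i (e q) : M → ℝ) x -
          (i (e p) : M → ℝ) x * (i (e p) : M → ℝ) x) = 0 := by linarith
      rcases mul_eq_zero.1 this with h | h
      · exact absurd h h3.ne'
      · linarith
    by_contra hne
    rcases mul_eq_zero.1 h4 with h | h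
    · exact hne h
    · rw [h, mul_zero] at h5
      exact hne (mul_self_eq_zero.1 h5.symm)
  have h1 := hEg.orth p p
  rw [if_pos rfl, hB] at h1
  rw [integral_eq_zero_of_ae (by
    filter_upwards [h0] with x hx
    rw [hx]
    simp)] at h1
  exact zero_ne_one h1

end Pool.Agent.Q233.RSP
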