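import Pool.Agent.Q233.RSP.Abs2

/-!
# Random spectra: the laws of the normalised differences, for forms
-/

set_option autoImplicit false

open Set Filter Topology MeasureTheory
open Pool.Agent.Y262.QE Pool.Agent.Y264.QR Pool.Agent.Y319.QR

noncomputable section

namespace Pool.Agent.Q233.RSP

variable {M : Type} [MetricSpace M] [CompactSpace M] [MeasurableSpace M] [BorelSpace M]
  {μ : Measure M} [IsFiniteMeasure μ] {H : Type} [NormedAddCommGroup H] [InnerProductSpace ℝ H]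
  {i : H →L[ℝ] Lp ℝ 2 μ} {a : H →L[ℝ] H →L[ℝ] ℝ} {b : C(M, ℝ) → H →L[ℝ] H →L[ℝ] ℝ}

lemma exp_int (φ : C(M, ℝ)) : Integrable (fun x => Real.exp (φ x)) μ := by
  have h := cint μ ⟨fun x => Real.exp (φ x), Real.continuous_exp.comp φ.continuous⟩
    (integrable_const (1 : ℝ))
  simpa using h

/-- the derivative of the area -/
lemma der_area (φ h : C(M, ℝ)) :
    HasDerivAt (fun t : ℝ => ∫ x, Real.exp ((φ + t • h) x) ∂μ) (∫ x, h x * Real.exp (φ x) ∂μ) 0 := by
  have key := (hasDerivAt_integral_of_dominated_loc_of_deriv_le (μ := μ)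
    (F := fun (t : ℝ) x => Real.exp ((φ + t • h) x))
    (F' := fun (t : ℝ) x => h x * Real.exp ((φ + t • h) x)) (x₀ := (0 : ℝ)) (s := Metric.ball 0 1)
    (bound := fun _ => ‖h‖ * Real.exp (‖φ‖ + ‖h‖)) (Metric.ball_mem_nhds _ one_pos)
    (Eventually.of_forall fun t => (exp_int (μ := μ) (φ + t • h)).1) (exp_int (μ := μ) _)
    (cint μ h (exp_int (μ := μ) (φ + (0 : ℝ) • h))).1 ?_ (integrable_const _) ?_).2
  · simpa using key
  · refine Eventually.of_forall fun x t ht => ?_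
    rw [Metric.mem_ball, dist_zero_right, Real.norm_eq_abs] at ht
    rw [norm_mul, Real.norm_eq_abs (Real.exp _), Real.abs_exp]
    have h1 : (φ + t • h) x ≤ ‖φ‖ + ‖h‖ := by
      rw [ContinuousMap.add_apply, ContinuousMap.smul_apply, smul_eq_mul]
      have h2 := (abs_le.1 (φ.norm_coe_le_norm x)).2
      have h3 : t * h x ≤ ‖h‖ := by
        calc t * h x ≤ |t * h x| := le_abs_self _
          _ = |t| * |h x| := abs_mul _ _
          _ ≤ 1 * ‖h‖ := mul_le_mul ht.le (h.norm_coe_le_norm x) (abs_nonneg _) zero_le_one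
          _ = ‖h‖ := one_mul _
      linarith
    exact mul_le_mul (h.norm_coe_le_norm x) (Real.exp_le_exp.2 h1) (Real.exp_pos _).le (norm_nonneg _)
  · refine Eventually.of_forall fun x t _ => ?_
    have h1 : HasDerivAt (fun t : ℝ => (φ + t • h) x) (h x) t := by
      have h2 : (fun t : ℝ => (φ + t • h) x) = fun t : ℝ => φ x + t * h x := by
        funext t
        rw [ContinuousMap.add_apply, ContinuousMap.smul_apply, smul_eq_mul]
      rw [h2]
      simpa using ((hasDerivAt_id t).mul_const (h x)).const_add (φ x)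
    have h3 := h1.exp
    rwa [mul_comm] at h3

/-- the difference of two eigenvalues, multiplied by the area -/
def Gp (μ : Measure M) (a : H →L[ℝ] H →L[ℝ] ℝ) (b : C(M, ℝ) → H →L[ℝ] H →L[ℝ] ℝ) (p q : ℕ)
    (φ : C(M, ℝ)) : ℝ :=
  (∫ x, Real.exp (φ x) ∂μ) * (Ev a (b φ) q - Ev a (b φ) p)

/-- the density of the derivative of the difference -/
def Wp (μ : Measure M) (i : H →L[ℝ] Lp ℝ 2 μ) (φ : C(M, ℝ)) (u v : H) (lu lv : ℝ) (x : M) : ℝ :=
  (lv - lu) * Real.exp (φ x) - (∫ x, Real.exp (φ x) ∂μ) *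
    (lv * (Real.exp (φ x) * (i v x * i v x)) - lu * (Real.exp (φ x) * (i u x * i u x)))

lemma Wp_int (φ : C(M, ℝ)) (u v : H) (lu lv : ℝ) : Integrable (Wp μ i φ u v lu lv) μ :=
  ((exp_int φ).const_mul _).sub ((((cross_int φ v v).const_mul lv).sub
    ((cross_int φ u u).const_mul lu)).const_mul _)

theorem gap_der (hSf : Sf μ i a) (hB : IsB μ i b) {h φ : C(M, ℝ)} (hd : Dif a b h φ) {e : ℕ → H}
    {E : ℕ → ℝ} (hEg : Eg a (b φ) e E) (p q : ℕ) :
    HasDerivAt (fun t : ℝ => Gp μ a b p q (φ + t • h))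
      (∫ x, h x * Wp μ i φ (e p) (e q) (E p) (E q) x ∂μ) 0 := by
  obtain ⟨b', hB', hFm, -, -, -⟩ := tFm M μ H i a hSf
  have hbb : b' = b := b_unique hB' hB
  subst hbb
  have h1 := branch hSf hB hd hEg p
  have h2 := branch hSf hB hd hEg q
  have h3 := (der_area (μ := μ) φ h).mul (h2.sub h1)
  have hz : φ + (0 : ℝ) • h = φ := by rw [zero_smul, add_zero]
  have hE : ∀ l, Ev a (b' φ) l = E l :=
    fun l => Pool.Agent.Y592.QE.mm H a (b' φ) (hFm φ) e E hEg l
  have e2 : ∀ w : H, kap μ i h φ w = ∫ x, h x * (Real.exp (φ x) * (i w x * i w x)) ∂μ := by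
    intro w
    unfold kap
    refine integral_congr_ae (Eventually.of_forall fun x => ?_)
    ring
  have e3 : ∫ x, h x * Wp μ i φ (e p) (e q) (E p) (E q) x ∂μ =
      (E q - E p) * (∫ x, h x * Real.exp (φ x) ∂μ) - (∫ x, Real.exp (φ x) ∂μ) *
        (E q * kap μ i h φ (e q) - E p * kap μ i h φ (e p)) := by
    have q0 := (cint μ h (exp_int (μ := μ) φ)).const_mul (E q - E p)
    have q1 := (cint μ h (cross_int (μ := μ) (i := i) φ (e q) (e q))).const_mul
      ((∫ x, Real.exp (φ x) ∂μ) * E q)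
    have q2 := (cint μ h (cross_int (μ := μ) (i := i) φ (e p) (e p))).const_mul
      ((∫ x, Real.exp (φ x) ∂μ) * E p)
    have q01 : Integrable (fun x => (E q - E p) * (h x * Real.exp (φ x)) -
        (∫ x, Real.exp (φ x) ∂μ) * E q * (h x * (Real.exp (φ x) * (i (e q) x * i (e q) x)))) μ :=
      q0.sub q1
    have e4 : ∫ x, h x * Wp μ i φ (e p) (e q) (E p) (E q) x ∂μ =
        ∫ x, ((E q - E p) * (h x * Real.exp (φ x)) -
        (∫ x, Real.exp (φ x) ∂μ) * E q * (h x * (Real.exp (φ x) * (i (e q) x * i (e q) x)))) +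
        (∫ x, Real.exp (φ x) ∂μ) * E p * (h x * (Real.exp (φ x) * (i (e p) x * i (e p) x))) ∂μ := by
      refine integral_congr_ae (Eventually.of_forall fun x => ?_)
      simp only [Wp]
      ring
    rw [e4, integral_add q01 q2, integral_sub q0 q1, integral_const_mul, integral_const_mul,
      integral_const_mul, e2, e2]
    ring
  rw [e3]
  have h4 : HasDerivAt (fun t : ℝ => Gp μ a b' p q (φ + t • h)) _ 0 := h3
  refine h4.congr_deriv ?_
  show (∫ x, h x * Real.exp (φ x) ∂μ) * (Ev a (b' (φ + (0 : ℝ) • h)) q -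
    Ev a (b' (φ + (0 : ℝ) • h)) p) + (∫ x, Real.exp ((φ + (0 : ℝ) • h) x) ∂μ) *
    (-(kap μ i h φ (e q) * E q) - -(kap μ i h φ (e p) * E p)) = _
  rw [hz, hE, hE]
  ring

/-- if the squares of eigenfunctions with positive eigenvalue are not bounded below, then every
difference of eigenvalues has a nonzero derivative in one of sufficiently many directions -/
theorem gap_point (hSf : Sf μ i a) (hB : IsB μ i b) {φ : C(M, ℝ)}
    (hNZ : ∀ (v : H) (lam : ℝ), 0 < lam → (∀ w, a v w = lam * b φ v w) → ∀ δ : ℝ, 0 < δ →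
      ¬ ∀ᵐ x ∂μ, δ ≤ (i v x) ^ 2)
    (S : Set C(M, ℝ)) (hS : Dense (Submodule.span ℝ S : Set C(M, ℝ))) (hd : ∀ h ∈ S, Dif a b h φ)
    {e : ℕ → H} {E : ℕ → ℝ} (hEg : Eg a (b φ) e E) (hE0 : ∀ j, 0 ≤ E j) {p q : ℕ}
    (hE : E p < E q) :
    ∃ h ∈ S, ∃ D : ℝ, D ≠ 0 ∧ HasDerivAt (fun t : ℝ => Gp μ a b p q (φ + t • h)) D 0 := by
  by_contra hcon
  push Not at hcon
  have h1 : ∀ h ∈ S, ∫ x, h x * Wp μ i φ (e p) (e q) (E p) (E q) x ∂μ = 0 := by
    intro h hh
    by_contra hne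
    exact hcon h hh _ hne (gap_der hSf hB (hd h hh) hEg p q)
  have h2 := zero_of_total μ (Wp_int (μ := μ) (i := i) φ (e p) (e q) (E p) (E q)) S hS h1
  obtain ⟨b', hB', hFm, hpos, -, -⟩ := tFm M μ H i a hSf
  have hA := hpos φ
  have hq : 0 < E q := (hE0 p).trans_lt hE
  refine hNZ (e q) (E q) hq (fun w => hEg.eig q w) ((E q - E p) / ((∫ x, Real.exp (φ x) ∂μ) * E q))
    (div_pos (sub_pos.2 hE) (mul_pos hA hq)) ?_
  filter_upwards [h2] with x hx
  simp only [Wp, Pi.zero_apply] at hx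
  have h3 := Real.exp_pos (φ x)
  set A := ∫ x, Real.exp (φ x) ∂μ
  have h4 : Real.exp (φ x) * ((E q - E p) - A * (E q * (i (e q) x * i (e q) x) -
      E p * (i (e p) x * i (e p) x))) = 0 := by linarith
  have h5 : (E q - E p) = A * (E q * (i (e q) x * i (e q) x) -
      E p * (i (e p) x * i (e p) x)) := by
    rcases mul_eq_zero.1 h4 with h | h
    · exact absurd h h3.ne'
    · linarith
  rw [div_le_iff₀ (mul_pos hA hq), h5]
  have h6 : 0 ≤ A * (E p * (i (e p) x * i (e p) x)) :=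
    mul_nonneg hA.le (mul_nonneg (hE0 p) (mul_self_nonneg _))
  nlinarith

/-- **the laws of the differences are absolutely continuous** -/
theorem gap_null [MeasurableSpace C(M, ℝ)] [BorelSpace C(M, ℝ)] (hSf : Sf μ i a) (hB : IsB μ i b)
    (hW : Wl μ a b) (e : C(M, ℝ) → ℕ → H) (E : C(M, ℝ) → ℕ → ℝ)
    (hEg : ∀ φ, Eg a (b φ) (e φ) (E φ)) (P : Measure C(M, ℝ)) [IsProbabilityMeasure P]
    (S : Set C(M, ℝ)) (hSc : S.Countable) (hS : Dense (Submodule.span ℝ S : Set C(M, ℝ)))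
    (hac : ∀ h ∈ S, ∀ t : ℝ, P.map (fun φ => φ + t • h) ≪ P)
    (hNZ : ∀ (φ : C(M, ℝ)) (v : H) (lam : ℝ), 0 < lam → (∀ w, a v w = lam * b φ v w) →
      ∀ δ : ℝ, 0 < δ → ¬ ∀ᵐ x ∂μ, δ ≤ (i v x) ^ 2) (p q : ℕ) (hpq : p < q)
    (hpos : ∀ φ, 0 < E φ q) (N : Set ℝ) (hN : volume N = 0) :
    ∀ᵐ φ ∂P, Gp μ a b p q φ ∉ N := by
  obtain ⟨b', hB', hFm, hapos, hcmp, hk⟩ := tFm M μ H i a hSf
  have hbb : b' = b := b_unique hB' hB
  subst hbb
  obtain ⟨-, hmon, -, hcont, hdich⟩ := tLip M μ H a b' hFm hcmp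
  obtain ⟨hcm1, -, -, hcm4⟩ := Pool.Agent.Y689.QR.cm M μ
  have hEE : ∀ φ l, Ev a (b' φ) l = E φ l :=
    fun φ l => Pool.Agent.Y592.QE.mm H a (b' φ) (hFm φ) (e φ) (E φ) (hEg φ) l
  have hE0 : ∀ φ l, 0 ≤ E φ l := fun φ l => by
    rw [← hEE]
    exact Pool.Agent.Y390.QR.LIP.Ev_nonneg l
  -- the function is continuous
  have hGc : Continuous (Gp μ a b' p q) := by
    refine Continuous.mul ?_ ((hcont q).sub (hcont p))
    exact (Pool.Agent.Y689.QR.int_cont μ).comp Pool.Agent.Y689.QR.exp_cont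
  set N' := toMeasurable volume N with hN'
  have hN'0 : volume N' = 0 := by rw [hN', measure_toMeasurable, hN]
  have hN'm : MeasurableSet N' := measurableSet_toMeasurable _ _
  have hbad : ∀ h ∈ S, ∀ᵐ φ ∂P, Gp μ a b' p q φ ∈ N' → ∀ D : ℝ,
      HasDerivAt (fun t : ℝ => Gp μ a b' p q (φ + t • h)) D 0 → D = 0 := by
    intro h hh
    have hm1 := hcm1 (Gp μ a b' p q) hGc h
    have hms : MeasurableSet {φ : C(M, ℝ) | Gp μ a b' p q φ ∈ N' ∧
        DifferentiableAt ℝ (fun t : ℝ => Gp μ a b' p q (φ + t • h)) 0 ∧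
        deriv (fun t : ℝ => Gp μ a b' p q (φ + t • h)) 0 ≠ 0} :=
      (hGc.measurable hN'm).inter (hm1.2.inter (hm1.1 (measurableSet_singleton 0).compl))
    have h1 := Pool.Agent.Y941.QR.qn C(M, ℝ) P (fun (t : ℝ) φ => φ + t • h) (hcm4 P h (hac h hh)) _
      hms (by
        intro φ
        filter_upwards [null_der (fun t : ℝ => Gp μ a b' p q (φ + t • h)) N' hN'0] with t ht
        rintro ⟨h2, h3, h4⟩
        refine h4 (ht h2 _ ?_)
        have h5 := h3.hasDerivAt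
        have h7 : HasDerivAt (fun τ : ℝ => Gp μ a b' p q ((φ + t • h) + τ • h))
          (deriv (fun τ : ℝ => Gp μ a b' p q ((φ + t • h) + τ • h)) 0) (t - t) := by
          rw [sub_self]
          exact h5
        have h8 := HasDerivAt.comp_sub_const t t h7
        have h9 : (fun s : ℝ => Gp μ a b' p q ((φ + t • h) + (s - t) • h)) =
            fun s : ℝ => Gp μ a b' p q (φ + s • h) := by
          funext s
          rw [add_assoc, ← add_smul]
          congr 3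
          ring
        rwa [h9] at h8)
    have h2 : ∀ᵐ φ ∂P, φ ∉ {φ : C(M, ℝ) | Gp μ a b' p q φ ∈ N' ∧
        DifferentiableAt ℝ (fun t : ℝ => Gp μ a b' p q (φ + t • h)) 0 ∧
        deriv (fun t : ℝ => Gp μ a b' p q (φ + t • h)) 0 ≠ 0} := measure_eq_zero_iff_ae_notMem.1 h1
    filter_upwards [h2] with φ hφ h3 D hD
    by_contra hne
    exact hφ ⟨h3, hD.differentiableAt, by rw [hD.deriv]; exact hne⟩
  have hdif : ∀ᵐ φ ∂P, ∀ h ∈ S, Dif a b' h φ := by
    rw [ae_ball_iff hSc]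
    intro h hh
    exact ae_dif hSf hB hW e E hEg P h (hac h hh)
  have hbad' : ∀ᵐ φ ∂P, ∀ h ∈ S, Gp μ a b' p q φ ∈ N' → ∀ D : ℝ,
      HasDerivAt (fun t : ℝ => Gp μ a b' p q (φ + t • h)) D 0 → D = 0 := by
    rw [ae_ball_iff hSc]
    exact hbad
  filter_upwards [hdif, hbad'] with φ h1 h2 h3
  have hlt : E φ p < E φ q := by
    rcases ((hEg φ).mono hpq.le).lt_or_eq with h | h
    · exact h
    · exact absurd (simple hSf hB S hS h1 (hEg φ) hpq.ne h (by rw [h]; exact hpos φ)) id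
  obtain ⟨h, hh, D, hD, hder⟩ := gap_point hSf hB (hNZ φ) S hS h1 (hEg φ) (hE0 φ) hlt
  exact hD (h2 h hh (subset_toMeasurable _ _ h3) D hder)

end Pool.Agent.Q233.RSP
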