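import Pool.Agent.Q233.RSP.Abs3

/-!
# Random spectra: eigenfunctions of a positive eigenvalue are not bounded away from zero

If `v ^ 2 ≥ δ` almost everywhere for an eigenfunction `v` with the eigenvalue `lam > 0`, then the
eigenvalue equation is tested with `v / (v ^ 2 + δ)`: the Dirichlet form gives a number `≤ 0`.
-/

set_option autoImplicit false

open Set Filter Topology MeasureTheory
open Pool.Agent.Y262.QE Pool.Agent.Y264.QR

noncomputable section

namespace Pool.Agent.Q233.RSP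

/-- the test function -/
def ff (δ s : ℝ) : ℝ := s / (s ^ 2 + δ)

/-- its derivative -/
def ff' (δ s : ℝ) : ℝ := (δ - s ^ 2) / (s ^ 2 + δ) ^ 2

lemma ff_pos {δ : ℝ} (hδ : 0 < δ) (s : ℝ) : 0 < s ^ 2 + δ := by positivity

lemma ff_der {δ : ℝ} (hδ : 0 < δ) (s : ℝ) : HasDerivAt (ff δ) (ff' δ s) s := by
  have h1 : HasDerivAt (fun s : ℝ => s ^ 2 + δ) (2 * s) s := by
    simpa using ((hasDerivAt_id s).pow 2).add_const δ
  have h2 := (hasDerivAt_id s).div h1 (ff_pos hδ s).ne'
  refine h2.congr_deriv ?_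
  unfold ff'
  simp only [id]
  congr 1
  ring

lemma ff_smooth {δ : ℝ} (hδ : 0 < δ) : ContDiff ℝ 1 (ff δ) := by
  unfold ff
  exact contDiff_id.div ((contDiff_id.pow 2).add contDiff_const) fun s => (ff_pos hδ s).ne'

lemma ff'_cont {δ : ℝ} (hδ : 0 < δ) : Continuous (ff' δ) := by
  unfold ff'
  exact (by fun_prop : Continuous fun s : ℝ => δ - s ^ 2).div
    (by fun_prop) fun s => (pow_pos (ff_pos hδ s) 2).ne'

lemma ff'_bd {δ : ℝ} (hδ : 0 < δ) (s : ℝ) : |ff' δ s| ≤ 1 / δ := by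
  unfold ff'
  have h := ff_pos hδ s
  rw [abs_div, abs_of_pos (pow_pos h 2), div_le_div_iff₀ (pow_pos h 2) hδ, one_mul]
  have h1 : |δ - s ^ 2| ≤ s ^ 2 + δ := abs_le.2 ⟨by nlinarith [sq_nonneg s], by nlinarith [sq_nonneg s]⟩
  nlinarith [sq_nonneg s, abs_nonneg (δ - s ^ 2)]

lemma ff_bd {δ : ℝ} (hδ : 0 < δ) (s : ℝ) : |ff δ s| ≤ 1 + 1 / δ := by
  unfold ff
  have h := ff_pos hδ s
  rw [abs_div, abs_of_pos h, div_le_iff₀ h]
  have h1 : |s| ≤ s ^ 2 + 1 := by
    have := sq_nonneg (|s| - 1)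
    rw [sub_sq, sq_abs] at this
    nlinarith [abs_nonneg s]
  have h2 : (1 + 1 / δ) * (s ^ 2 + δ) = s ^ 2 + δ + 1 / δ * s ^ 2 + 1 := by
    field_simp
    ring
  rw [h2]
  have h3 : 0 ≤ 1 / δ * s ^ 2 := by positivity
  linarith

/-- the gradient of a composition -/
lemma gr_comp {M : Type} [MetricSpace M] [CompactSpace M] [MeasurableSpace M] [BorelSpace M]
    {μ : Measure M} {D : Data M} (hD : D.IsSurf μ) {δ : ℝ} (hδ : 0 < δ) {F : M → ℝ} (hF : D.C1 F) :
    D.C1 (fun x => ff δ (F x)) ∧ ∀ x, D.gr (fun x => ff δ (F x)) x = ff' δ (F x) • D.gr F x := by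
  refine ⟨fun i => (ff_smooth hδ).comp_contDiffOn (hF i), fun x => ?_⟩
  have key : ∀ i, (D.pc i).indicator (D.gc i (fun x => ff δ (F x))) x =
      ff' δ (F x) • (D.pc i).indicator (D.gc i F) x := by
    intro i
    by_cases hx : x ∈ D.pc i
    · rw [indicator_of_mem hx, indicator_of_mem hx]
      have hU : x ∈ D.U i := hx.1
      have hT : D.φ i x ∈ D.T i := mem_image_of_mem _ hU
      have hdiff : DifferentiableAt ℝ (fun z => F (D.ψ i z)) (D.φ i x) :=
        ((hF i).contDiffAt ((hD.openT i).mem_nhds hT)).differentiableAt (by norm_num)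
      have h1 : HasDerivAt (ff δ) (ff' δ (F x)) (F (D.ψ i (D.φ i x))) := by
        rw [hD.left i x hU]
        exact ff_der hδ (F x)
      have h2 := h1.comp_hasFDerivAt (D.φ i x) hdiff.hasFDerivAt
      have h3 : D.dc i (fun x => ff δ (F x)) x = ff' δ (F x) • D.dc i F x := h2.fderiv
      show grd _ (D.dc i (fun x => ff δ (F x)) x) = _ • grd _ (D.dc i F x)
      rw [h3]
      unfold grd
      apply Complex.ext
      · simp
      · simp
    · rw [indicator_of_notMem hx, indicator_of_notMem hx, smul_zero]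
  unfold Data.gr
  rw [Finset.smul_sum]
  exact Finset.sum_congr rfl fun i _ => key i

theorem nz {M : Type} [MetricSpace M] [CompactSpace M] [MeasurableSpace M] [BorelSpace M]
    {μ : Measure M} [IsFiniteMeasure μ] {D : Data M} (hD : D.IsSurf μ)
    (i : HF D μ →L[ℝ] Lp ℝ 2 μ) (a : HF D μ →L[ℝ] HF D μ →L[ℝ] ℝ)
    (b : C(M, ℝ) → HF D μ →L[ℝ] HF D μ →L[ℝ] ℝ) (hi : ∀ v, i v = v.1.fst)
    (ha : ∀ u v, a u v = inner ℝ u.1.snd v.1.snd) (hB : IsB μ i b) (φ : C(M, ℝ))
    (hpos : 0 < ∫ x, Real.exp (φ x) ∂μ) (v : HF D μ) (lam : ℝ) (hlam : 0 < lam)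
    (he : ∀ w, a v w = lam * b φ v w) (δ : ℝ) (hδ : 0 < δ) : ¬ ∀ᵐ x ∂μ, δ ≤ (i v x) ^ 2 := by
  intro hv
  obtain ⟨hden1, hden2⟩ := tDenF M μ D hD
  obtain ⟨F₀, f₀, hF₀, hf₀⟩ := hden2 v.1 v.2
  -- a subsequence which converges almost everywhere
  have hn : ∀ x : WithLp 2 (Lp ℝ 2 μ × Lp ℂ 2 μ), ‖x.fst‖ ≤ ‖x‖ ∧ ‖x.snd‖ ≤ ‖x‖ := by
    intro x
    have h1 := WithLp.prod_norm_sq_eq_of_L2 x
    constructor
    · exact abs_le_of_sq_le_sq' (by nlinarith [sq_nonneg ‖x.snd‖]) (norm_nonneg _) |>.2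
    · exact abs_le_of_sq_le_sq' (by nlinarith [sq_nonneg ‖x.fst‖]) (norm_nonneg _) |>.2
  have hfst : Tendsto (fun k => (f₀ k).fst) atTop (𝓝 v.1.fst) := by
    rw [tendsto_iff_norm_sub_tendsto_zero] at hf₀ ⊢
    exact squeeze_zero (fun _ => norm_nonneg _) (fun k => (hn (f₀ k - v.1)).1) hf₀
  have hsnd : Tendsto (fun k => (f₀ k).snd) atTop (𝓝 v.1.snd) := by
    rw [tendsto_iff_norm_sub_tendsto_zero] at hf₀ ⊢
    exact squeeze_zero (fun _ => norm_nonneg _) (fun k => (hn (f₀ k - v.1)).2) hf₀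
  obtain ⟨ns, hns, hae⟩ := (tendstoInMeasure_of_tendsto_Lp hfst).exists_seq_tendsto_ae
  have hsnd' := hsnd.comp hns.tendsto_atTop
  have hFae : ∀ᵐ x ∂μ, Tendsto (fun k => F₀ (ns k) x) atTop (𝓝 (i v x)) := by
    have h1 : ∀ᵐ x ∂μ, ∀ k, ((f₀ k).fst : M → ℝ) x = F₀ k x := by
      rw [ae_all_iff]
      exact fun k => (hF₀ k).2.2.1
    filter_upwards [hae, h1] with x h2 h3
    rw [hi]
    simpa only [h3] using h2
  -- the test functions
  have hc := fun k => gr_comp hD hδ (hF₀ (ns k)).1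
  choose g hg using fun k => hden1 _ (hc k).1
  have hg0 : ∀ k, ∃ w : HF D μ, w.1 = g k := fun k => ⟨⟨g k, (hg k).1⟩, rfl⟩
  choose w hw using hg0
  -- the right side
  have hR : Tendsto (fun k => b φ v (w k)) atTop
      (𝓝 (∫ x, Real.exp (φ x) * (i v x * ff δ (i v x)) ∂μ)) := by
    have e1 : ∀ k, b φ v (w k) = ∫ x, Real.exp (φ x) * (i v x * ff δ (F₀ (ns k) x)) ∂μ := by
      intro k
      rw [hB]
      refine integral_congr_ae ?_
      filter_upwards [(hg k).2.1] with x hx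
      rw [hi (w k), hw, hx]
    simp only [e1]
    have hvi : Integrable (fun x => i v x) μ := (Lp.memLp (i v)).integrable (by norm_num)
    refine tendsto_integral_of_dominated_convergence
      (fun x => (1 + 1 / δ) * |Real.exp (φ x) * i v x|) ?_ ?_ ?_ ?_
    · intro k
      have h1 : AEStronglyMeasurable (fun x => F₀ (ns k) x) μ :=
        (Lp.aestronglyMeasurable (f₀ (ns k)).fst).congr (hF₀ (ns k)).2.2.1
      have h2 : AEStronglyMeasurable (fun x => ff δ (F₀ (ns k) x)) μ :=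
        (ff_smooth hδ).continuous.comp_aestronglyMeasurable h1
      exact (Real.continuous_exp.comp φ.continuous).aestronglyMeasurable.mul (hvi.1.mul h2)
    · exact ((cint μ ⟨fun x => Real.exp (φ x), Real.continuous_exp.comp φ.continuous⟩
        hvi).abs).const_mul _
    · intro k
      refine Eventually.of_forall fun x => ?_
      rw [Real.norm_eq_abs, ← mul_assoc, abs_mul, mul_comm]
      exact mul_le_mul_of_nonneg_right (ff_bd hδ _) (abs_nonneg _)
    · filter_upwards [hFae] with x hx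
      exact (((ff_smooth hδ).continuous.tendsto _).comp hx).const_mul _ |>.const_mul _
  -- the left side
  have hL : Tendsto (fun k => a v (w k)) atTop
      (𝓝 (∫ x, ff' δ (i v x) * ‖(v.1.snd : M → ℂ) x‖ ^ 2 ∂μ)) := by
    have hm : ∀ k, AEStronglyMeasurable (fun x => ff' δ (F₀ (ns k) x)) μ := fun k =>
      (ff'_cont hδ).comp_aestronglyMeasurable
        ((Lp.aestronglyMeasurable (f₀ (ns k)).fst).congr (hF₀ (ns k)).2.2.1)
    have hmem : ∀ k, MemLp (fun x => ff' δ (F₀ (ns k) x) • (v.1.snd : M → ℂ) x) 2 μ := by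
      intro k
      refine (Lp.memLp v.1.snd).of_le_mul (c := 1 / δ)
        ((hm k).smul (Lp.aestronglyMeasurable v.1.snd)) ?_
      refine Eventually.of_forall fun x => ?_
      rw [norm_smul, Real.norm_eq_abs]
      exact mul_le_mul_of_nonneg_right (ff'_bd hδ _) (norm_nonneg _)
    set m : ℕ → Lp ℂ 2 μ := fun k => (hmem k).toLp _ with hmdef
    have hmn : ∀ k, ‖m k‖ ≤ 1 / δ * ‖v.1.snd‖ := by
      intro k
      refine Lp.norm_le_mul_norm_of_ae_le_mul ?_
      filter_upwards [(hmem k).coeFn_toLp] with x hx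
      rw [hmdef]
      simp only
      rw [hx, norm_smul, Real.norm_eq_abs]
      exact mul_le_mul_of_nonneg_right (ff'_bd hδ _) (norm_nonneg _)
    have e1 : ∀ k, a v (w k) = inner ℝ (m k) ((f₀ (ns k)).snd - v.1.snd) +
        ∫ x, ff' δ (F₀ (ns k) x) * ‖(v.1.snd : M → ℂ) x‖ ^ 2 ∂μ := by
      intro k
      have e2 : ∫ x, ff' δ (F₀ (ns k) x) * ‖(v.1.snd : M → ℂ) x‖ ^ 2 ∂μ = inner ℝ (m k) v.1.snd := by
        rw [L2.inner_def]
        refine integral_congr_ae ?_
        filter_upwards [(hmem k).coeFn_toLp] with x hx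
        rw [hmdef]
        simp only
        rw [hx, real_inner_smul_left, real_inner_self_eq_norm_sq]
      rw [e2, ← inner_add_right, sub_add_cancel, ha, L2.inner_def, L2.inner_def]
      refine integral_congr_ae ?_
      filter_upwards [(hmem k).coeFn_toLp, (hg k).2.2, (hF₀ (ns k)).2.2.2] with x hx h2 h3
      rw [hw, h2, (hc k).2, hmdef]
      simp only
      rw [hx, h3, real_inner_smul_left, real_inner_smul_right]
    simp only [e1]
    have t1 : Tendsto (fun k => inner ℝ (m k) ((f₀ (ns k)).snd - v.1.snd)) atTop (𝓝 (0 : ℝ)) := by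
      have h1 : Tendsto (fun k => 1 / δ * ‖v.1.snd‖ * ‖(f₀ (ns k)).snd - v.1.snd‖) atTop
          (𝓝 0) := by
        have := (tendsto_iff_norm_sub_tendsto_zero.1 hsnd').const_mul (1 / δ * ‖v.1.snd‖)
        rwa [mul_zero] at this
      refine squeeze_zero_norm (fun k => ?_) h1
      exact (norm_inner_le_norm _ _).trans (mul_le_mul_of_nonneg_right (hmn k) (norm_nonneg _))
    have hsq : Integrable (fun x => ‖(v.1.snd : M → ℂ) x‖ ^ 2) μ :=
      (Lp.memLp v.1.snd).integrable_norm_pow (by norm_num)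
    have t2 : Tendsto (fun k => ∫ x, ff' δ (F₀ (ns k) x) * ‖(v.1.snd : M → ℂ) x‖ ^ 2 ∂μ) atTop
        (𝓝 (∫ x, ff' δ (i v x) * ‖(v.1.snd : M → ℂ) x‖ ^ 2 ∂μ)) := by
      refine tendsto_integral_of_dominated_convergence
        (fun x => 1 / δ * ‖(v.1.snd : M → ℂ) x‖ ^ 2) ?_ (hsq.const_mul _) ?_ ?_
      · exact fun k => (hm k).mul hsq.1
      · intro k
        refine Eventually.of_forall fun x => ?_
        rw [norm_mul, Real.norm_eq_abs, Real.norm_of_nonneg (sq_nonneg _)]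
        exact mul_le_mul_of_nonneg_right (ff'_bd hδ _) (sq_nonneg _)
      · filter_upwards [hFae] with x hx
        exact (((ff'_cont hδ).tendsto _).comp hx).mul_const _
    have := t1.add t2
    rwa [zero_add] at this
  have heq : (∫ x, ff' δ (i v x) * ‖(v.1.snd : M → ℂ) x‖ ^ 2 ∂μ) =
      lam * ∫ x, Real.exp (φ x) * (i v x * ff δ (i v x)) ∂μ := by
    refine tendsto_nhds_unique hL ?_
    have := hR.const_mul lam
    simpa only [← he] using this
  have h1 : (∫ x, ff' δ (i v x) * ‖(v.1.snd : M → ℂ) x‖ ^ 2 ∂μ) ≤ 0 := by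
    refine integral_nonpos_of_ae ?_
    filter_upwards [hv] with x hx
    have : ff' δ (i v x) ≤ 0 := by
      unfold ff'
      exact div_nonpos_of_nonpos_of_nonneg (by linarith) (sq_nonneg _)
    exact mul_nonpos_of_nonpos_of_nonneg this (sq_nonneg _)
  have h2 : 1 / 2 * (∫ x, Real.exp (φ x) ∂μ) ≤
      ∫ x, Real.exp (φ x) * (i v x * ff δ (i v x)) ∂μ := by
    rw [← integral_const_mul]
    refine integral_mono_ae ((exp_int φ).const_mul _) ?_ ?_
    · have hvi : Integrable (fun x => i v x) μ := (Lp.memLp (i v)).integrable (by norm_num)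
      have h3 : Integrable (fun x => i v x * ff δ (i v x)) μ := by
        refine hvi.mul_bdd (c := 1 + 1 / δ) ((ff_smooth hδ).continuous.comp_aestronglyMeasurable
          hvi.1) (Eventually.of_forall fun x => ?_)
        exact ff_bd hδ _
      exact cint μ ⟨fun x => Real.exp (φ x), Real.continuous_exp.comp φ.continuous⟩ h3
    · filter_upwards [hv] with x hx
      rw [mul_comm]
      refine mul_le_mul_of_nonneg_left ?_ (Real.exp_pos _).le
      unfold ff
      rw [← mul_div_assoc, div_le_div_iff₀ (by norm_num) (ff_pos hδ _)]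
      nlinarith
  nlinarith

end Pool.Agent.Q233.RSP
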